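import Mathlib

/-!
# The theorem of Vahlen and Capelli

`X ^ n - a` is irreducible over a field `K` if `a` is not a `p`-th power for any prime `p ∣ n`, and
not of the form `- 4 b ^ 4` in case `4 ∣ n`.
-/

set_option autoImplicit false

universe u

namespace Q217.SF

open Polynomial IntermediateField

theorem capelli {K : Type u} [Field K] {n : ℕ} (hn : n ≠ 0) {a : K}
    (ha : ∀ p : ℕ, p.Prime → p ∣ n → ∀ b : K, b ^ p ≠ a)
    (ha4 : 4 ∣ n → ∀ b : K, -4 * b ^ 4 ≠ a) :
    Irreducible (X ^ n - C a) := by
  induction n using induction_on_primes generalizing K a with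
  | zero => exact absurd rfl hn
  | one => simpa using irreducible_X_sub_C a
  | prime_mul p n hp IH =>
    have hn0 : n ≠ 0 := by
      rintro rfl
      exact hn (mul_zero _)
    rw [mul_comm]
    apply X_pow_mul_sub_C_irreducible
      (X_pow_sub_C_irreducible_of_prime hp (ha p hp (dvd_mul_right _ _)))
    intro E _ _ x hx
    have hint : IsIntegral K x := not_not.mp fun h ↦ by
      simpa only [degree_zero, degree_X_pow_sub_C hp.pos,
        WithBot.natCast_ne_bot] using congr_arg degree (hx.symm.trans (dif_neg h))
    have hnorm : Algebra.norm K (AdjoinSimple.gen K x) = (-1) ^ (p + 1) * a := by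
      rw [← adjoin.powerBasis_gen hint, Algebra.PowerBasis.norm_gen_eq_coeff_zero_minpoly]
      simp [minpoly_gen, hx, hp.ne_zero.symm]
      ring
    have hgen : (AdjoinSimple.gen K x) ^ p = algebraMap K K⟮x⟯ a := by
      have h1 := minpoly.aeval K x
      rw [hx] at h1
      simp only [map_sub, map_pow, aeval_X, aeval_C] at h1
      apply Subtype.ext
      have : x ^ p = algebraMap K E a := by rw [sub_eq_zero] at h1; exact h1
      simpa using this
    rcases hp.eq_two_or_odd' with h2 | hodd
    · -- `p = 2`
      subst h2
      have hnorm' : Algebra.norm K (AdjoinSimple.gen K x) = -a := by rw [hnorm]; ring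
      set g : K⟮x⟯ := AdjoinSimple.gen K x with hg
      have ha2 : ∀ b : K, b ^ 2 ≠ a := ha 2 hp (dvd_mul_right _ _)
      have ha0 : a ≠ 0 := by
        rintro rfl
        exact ha2 0 (by simp)
      have hgK : ∀ k : K, algebraMap K K⟮x⟯ k ≠ g := by
        intro k hk
        apply ha2 k
        apply (algebraMap K K⟮x⟯).injective
        rw [map_pow, hk, hgen]
      have key2 : 2 ∣ n → ∀ b : K⟮x⟯, b ^ 2 ≠ g := by
        intro h2n b hb
        obtain ⟨f, hfdeg, hfb⟩ := (adjoin.powerBasis hint).exists_eq_aeval b
        have hdim : (adjoin.powerBasis hint).dim = 2 := by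
          rw [adjoin.powerBasis_dim, hx, natDegree_X_pow_sub_C]
        have hf1 : f.natDegree ≤ 1 := by omega
        obtain ⟨v, w, rfl⟩ := exists_eq_X_add_C_of_natDegree_le_one hf1
        rw [adjoin.powerBasis_gen] at hfb
        simp only [map_add, map_mul, aeval_C, aeval_X] at hfb
        rw [← hg] at hfb
        have e1 : algebraMap K K⟮x⟯ (v ^ 2 * a + w ^ 2) =
            algebraMap K K⟮x⟯ (1 - 2 * v * w) * g := by
          have : b ^ 2 = g := hb
          rw [hfb] at this
          simp only [map_add, map_mul, map_sub, map_pow, map_one, map_ofNat]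
          rw [← hgen]
          linear_combination this
        have e2 : 1 - 2 * v * w = 0 := by
          by_contra hne
          apply hgK ((v ^ 2 * a + w ^ 2) / (1 - 2 * v * w))
          rw [map_div₀, e1, mul_div_assoc, mul_comm, div_mul_cancel₀]
          rw [Ne, map_eq_zero]
          exact hne
        have e3 : v ^ 2 * a + w ^ 2 = 0 := by
          rw [e2, map_zero, zero_mul, map_eq_zero] at e1
          exact e1
        have hv0 : v ≠ 0 := by
          rintro rfl
          simp at e2
        have h20 : (2 : K) ≠ 0 := by
          intro h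
          rw [h] at e2
          simp at e2
        obtain ⟨m, rfl⟩ := h2n
        apply ha4 ⟨m, by ring⟩ (1 / (2 * v))
        have e4 : w = 1 / (2 * v) := by
          field_simp
          linear_combination -e2
        rw [e4] at e3
        have : a = -(1 / (2 * v)) ^ 2 / v ^ 2 := by
          field_simp
          field_simp at e3
          linear_combination e3
        rw [this]
        field_simp
        norm_num
      apply IH hn0
      · intro q hq hqn b hb
        rcases hq.eq_two_or_odd' with h2 | hodd
        · subst h2
          exact key2 hqn b hb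
        · apply ha q hq (dvd_mul_of_dvd_right hqn 2) (-Algebra.norm _ b)
          rw [hodd.neg_pow, ← map_pow, hb, hnorm', neg_neg]
      · intro h4 b hb
        have h5 : Algebra.norm K (-4 : K⟮x⟯) = (-4) ^ 2 := by
          have := Algebra.norm_algebraMap_of_basis (adjoin.powerBasis hint).basis (-4 : K)
          rw [map_neg, map_ofNat] at this
          rw [this]
          simp [hx]
        have h6 : (4 * Algebra.norm K b ^ 2) ^ 2 = -a := by
          rw [← hnorm', ← hb, map_mul, map_pow, h5]
          ring
        have hγ0 : algebraMap K K⟮x⟯ (4 * Algebra.norm K b ^ 2) ≠ 0 := by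
          rw [Ne, map_eq_zero]
          intro h
          rw [h] at h6
          apply ha0
          linear_combination h6
        apply key2 ((by norm_num : (2:ℕ) ∣ 4).trans h4)
          (2 * (g / algebraMap K K⟮x⟯ (4 * Algebra.norm K b ^ 2)) * b ^ 2)
        have h7 : (g / algebraMap K K⟮x⟯ (4 * Algebra.norm K b ^ 2)) ^ 2 = -1 := by
          rw [div_pow, hgen, ← map_pow, h6, map_neg, div_neg, div_self]
          rwa [Ne, map_eq_zero]
        calc (2 * (g / algebraMap K K⟮x⟯ (4 * Algebra.norm K b ^ 2)) * b ^ 2) ^ 2
            = 4 * (g / algebraMap K K⟮x⟯ (4 * Algebra.norm K b ^ 2)) ^ 2 * b ^ 4 := by ring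
          _ = -4 * b ^ 4 := by rw [h7]; ring
          _ = g := hb
    · have hnorm' : Algebra.norm K (AdjoinSimple.gen K x) = a := by
        rw [hnorm, (hodd.add_one).neg_one_pow, one_mul]
      apply IH hn0
      · intro q hq hqn b hb
        apply ha q hq (dvd_mul_of_dvd_right hqn p) (Algebra.norm _ b)
        rw [← map_pow, hb, hnorm']
      · intro h4 b hb
        obtain ⟨m, hm⟩ := hodd
        apply ha4 (dvd_mul_of_dvd_right h4 p) (2 ^ m * Algebra.norm K b)
        rw [← hnorm', ← hb, map_mul, map_pow]
        have h5 : Algebra.norm K (-4 : K⟮x⟯) = (-4) ^ p := by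
          have := Algebra.norm_algebraMap_of_basis (adjoin.powerBasis hint).basis (-4 : K)
          rw [map_neg, map_ofNat] at this
          rw [this]
          simp [hx]
        rw [h5, hm]
        have : (-4 : K) ^ (2 * m + 1) = -4 * (2 ^ m) ^ 4 := by
          have e1 : ((-4 : K)) ^ 2 = 2 ^ 4 := by norm_num
          rw [pow_succ, pow_mul, e1, ← pow_mul, ← pow_mul, mul_comm 4 m]
          ring
        rw [this]
        ring

end Q217.SF
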