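import Mathlib

/-!
# The gap lemma for sparse sums of powers of `b`
-/

set_option autoImplicit false

namespace Q217.SF

open Finset

theorem low_sum {I : Type*} [DecidableEq I] {b : ℕ} (hb : 2 ≤ b) {c : I → ℤ} {E : I → ℕ}
    {h : ℕ} {J : Finset I} (hJ : ∑ i ∈ J, |c i| < (b : ℤ) ^ (h + 1))
    (h0 : ∑ i ∈ J, c i * (b : ℤ) ^ (E i) = 0) {t : ℕ}
    (ht : ∀ i ∈ J, E i < t → E i + h < t) :
    ∑ i ∈ J.filter (fun i => E i < t), c i * (b : ℤ) ^ (E i) = 0 := by
  have hb0 : (0 : ℤ) < b := by positivity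
  have hb1 : (1 : ℤ) ≤ b := by exact_mod_cast (by omega : 1 ≤ b)
  by_cases hth : t ≤ h
  · have he : J.filter (fun i => E i < t) = ∅ := by
      apply Finset.filter_eq_empty_iff.2
      intro i hi hlt
      have := ht i hi hlt
      omega
    rw [he]; simp
  push Not at hth
  apply Int.eq_zero_of_abs_lt_dvd (m := (b : ℤ) ^ t)
  · have h1 := Finset.sum_filter_add_sum_filter_not J (fun i => E i < t)
      (fun i => c i * (b : ℤ) ^ (E i))
    rw [h0] at h1
    have h2 : (b : ℤ) ^ t ∣ ∑ i ∈ J.filter (fun i => ¬ E i < t), c i * (b : ℤ) ^ (E i) := by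
      apply Finset.dvd_sum
      intro i hi
      rw [Finset.mem_filter] at hi
      exact Dvd.dvd.mul_left (pow_dvd_pow _ (by omega)) _
    have h3 : ∑ i ∈ J.filter (fun i => E i < t), c i * (b : ℤ) ^ (E i) =
      -∑ i ∈ J.filter (fun i => ¬ E i < t), c i * (b : ℤ) ^ (E i) := by linarith
    rw [h3]
    exact (dvd_neg).2 h2
  · calc |∑ i ∈ J.filter (fun i => E i < t), c i * (b : ℤ) ^ (E i)|
        ≤ ∑ i ∈ J.filter (fun i => E i < t), |c i * (b : ℤ) ^ (E i)| :=
          Finset.abs_sum_le_sum_abs _ _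
      _ ≤ ∑ i ∈ J.filter (fun i => E i < t), |c i| * (b : ℤ) ^ (t - h - 1) := by
          apply Finset.sum_le_sum
          intro i hi
          rw [Finset.mem_filter] at hi
          rw [abs_mul, abs_of_nonneg (by positivity : (0:ℤ) ≤ (b : ℤ) ^ (E i))]
          apply mul_le_mul_of_nonneg_left _ (abs_nonneg _)
          apply pow_le_pow_right₀ hb1
          have := ht i hi.1 hi.2
          omega
      _ = (∑ i ∈ J.filter (fun i => E i < t), |c i|) * (b : ℤ) ^ (t - h - 1) := by
          rw [Finset.sum_mul]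
      _ ≤ (∑ i ∈ J, |c i|) * (b : ℤ) ^ (t - h - 1) := by
          apply mul_le_mul_of_nonneg_right _ (by positivity)
          exact Finset.sum_le_sum_of_subset_of_nonneg (Finset.filter_subset _ _)
            (fun i _ _ => abs_nonneg _)
      _ < (b : ℤ) ^ (h + 1) * (b : ℤ) ^ (t - h - 1) := by
          apply mul_lt_mul_of_pos_right hJ (by positivity)
      _ = (b : ℤ) ^ t := by
          rw [← pow_add]
          congr 1
          omega

/-- If a sum of powers of `b` with small coefficients vanishes, then the part of the sum over a set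
of indices, closed under closeness of exponents, vanishes as well. -/
theorem closed_sum {I : Type*} [DecidableEq I] {b : ℕ} (hb : 2 ≤ b) {c : I → ℤ} {E : I → ℕ}
    {h : ℕ} (J : Finset I) (hJ : ∑ i ∈ J, |c i| < (b : ℤ) ^ (h + 1))
    (h0 : ∑ i ∈ J, c i * (b : ℤ) ^ (E i) = 0) (S : Finset I) (hS : S ⊆ J)
    (hcl : ∀ i ∈ S, ∀ j ∈ J, E i ≤ E j + h → E j ≤ E i + h → j ∈ S) :
    ∑ i ∈ S, c i * (b : ℤ) ^ (E i) = 0 := by
  induction hn : J.card using Nat.strong_induction_on generalizing J S with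
  | _ n ih =>
  by_cases hS0 : S = ∅
  · rw [hS0]; simp
  by_cases hC0 : J \ S = ∅
  · have : S = J := Finset.Subset.antisymm hS (Finset.sdiff_eq_empty_iff_subset.1 hC0)
    rw [this]; exact h0
  have hSne : S.Nonempty := Finset.nonempty_iff_ne_empty.2 hS0
  have hCne : (J \ S).Nonempty := Finset.nonempty_iff_ne_empty.2 hC0
  obtain ⟨p, hpS, hp⟩ := Finset.exists_min_image S E hSne
  obtain ⟨q, hqC, hq⟩ := Finset.exists_min_image (J \ S) E hCne
  rw [Finset.mem_sdiff] at hqC
  have key : ∃ t, (∀ i ∈ J, E i < t → E i + h < t) ∧ (∃ i ∈ J, E i < t) ∧ (∃ j ∈ J, t ≤ E j) := by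
    rcases lt_trichotomy (E p) (E q) with hlt | heq | hgt
    · refine ⟨E q, ?_, ⟨p, hS hpS, hlt⟩, ⟨q, hqC.1, le_rfl⟩⟩
      intro i hi hiq
      have hiS : i ∈ S := by
        by_contra hns
        have := hq i (Finset.mem_sdiff.2 ⟨hi, hns⟩)
        omega
      by_contra hcon
      push Not at hcon
      exact hqC.2 (hcl i hiS q hqC.1 (by omega) hcon)
    · exact absurd (hcl p hpS q hqC.1 (by omega) (by omega)) hqC.2
    · refine ⟨E p, ?_, ⟨q, hqC.1, hgt⟩, ⟨p, hS hpS, le_rfl⟩⟩
      intro i hi hip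
      have hiS : i ∉ S := by
        intro hns
        have := hp i hns
        omega
      by_contra hcon
      push Not at hcon
      exact hiS (hcl p hpS i hi hcon (by omega))
  obtain ⟨t, ht, ⟨i0, hi0, hi0t⟩, ⟨j0, hj0, hj0t⟩⟩ := key
  have hlo := low_sum hb hJ h0 ht
  have hsplit := Finset.sum_filter_add_sum_filter_not J (fun i => E i < t)
      (fun i => c i * (b : ℤ) ^ (E i))
  have hhi : ∑ i ∈ J.filter (fun i => ¬ E i < t), c i * (b : ℤ) ^ (E i) = 0 := by
    rw [h0, hlo] at hsplit; linarith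
  have hsplitS := Finset.sum_filter_add_sum_filter_not S (fun i => E i < t)
      (fun i => c i * (b : ℤ) ^ (E i))
  rw [← hsplitS]
  have hsub : ∀ P : I → Prop, [DecidablePred P] → ∑ i ∈ J.filter P, |c i| < (b : ℤ) ^ (h + 1) := by
    intro P _
    refine lt_of_le_of_lt ?_ hJ
    exact Finset.sum_le_sum_of_subset_of_nonneg (Finset.filter_subset _ _)
            (fun i _ _ => abs_nonneg _)
  have e1 : ∑ i ∈ S.filter (fun i => E i < t), c i * (b : ℤ) ^ (E i) = 0 := by
    refine ih _ ?_ (J.filter (fun i => E i < t)) (hsub _) hlo _ ?_ ?_ rfl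
    · rw [← hn]
      apply Finset.card_lt_card
      refine ⟨Finset.filter_subset _ _, fun hcon => ?_⟩
      have := hcon hj0
      rw [Finset.mem_filter] at this
      omega
    · exact Finset.filter_subset_filter _ hS
    · intro i hi j hj h1 h2
      rw [Finset.mem_filter] at hi hj ⊢
      exact ⟨hcl i hi.1 j hj.1 h1 h2, hj.2⟩
  have e2 : ∑ i ∈ S.filter (fun i => ¬ E i < t), c i * (b : ℤ) ^ (E i) = 0 := by
    refine ih _ ?_ (J.filter (fun i => ¬ E i < t)) (hsub _) hhi _ ?_ ?_ rfl
    · rw [← hn]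
      apply Finset.card_lt_card
      refine ⟨Finset.filter_subset _ _, fun hcon => ?_⟩
      have := hcon hi0
      rw [Finset.mem_filter] at this
      omega
    · exact Finset.filter_subset_filter _ hS
    · intro i hi j hj h1 h2
      rw [Finset.mem_filter] at hi hj ⊢
      exact ⟨hcl i hi.1 j hj.1 h1 h2, hj.2⟩
  rw [e1, e2, add_zero]

end Q217.SF
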