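import Mathlib

/-!
# Small integral functionals orthogonal to a set of short integer vectors
-/

set_option autoImplicit false

namespace Q217.SF

open Finset Matrix

theorem hadamard_fin {n : ℕ} (M : Matrix (Fin n) (Fin n) ℝ) :
    |M.det| ≤ ∏ i, Real.sqrt (∑ j, (M i j) ^ 2) := by
  let E := EuclideanSpace ℝ (Fin n)
  have : Fact (Module.finrank ℝ E = n) := ⟨by simp [E]⟩
  let b : OrthonormalBasis (Fin n) ℝ E := EuclideanSpace.basisFun (Fin n) ℝ
  let o : Orientation ℝ E (Fin n) := b.toBasis.orientation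
  let v : Fin n → E := fun i => WithLp.toLp 2 (M i)
  have h1 := o.abs_volumeForm_apply_le v
  rw [o.volumeForm_robust b rfl] at h1
  have h2 : b.toBasis.det v = M.det := by
    rw [Module.Basis.det_apply, ← Matrix.det_transpose M]
    congr 1
  rw [h2] at h1
  refine h1.trans (le_of_eq ?_)
  apply Finset.prod_congr rfl
  intro i _
  rw [EuclideanSpace.norm_eq]
  simp [v]

theorem hadamard {σ : Type*} [Fintype σ] [DecidableEq σ] (M : Matrix σ σ ℝ) :
    |M.det| ≤ ∏ i, Real.sqrt (∑ j, (M i j) ^ 2) := by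
  let e := Fintype.equivFin σ
  have h := hadamard_fin (M.submatrix e.symm e.symm)
  rw [Matrix.det_submatrix_equiv_self] at h
  refine h.trans (le_of_eq ?_)
  rw [← e.symm.prod_comp (fun i => Real.sqrt (∑ j, (M i j) ^ 2))]
  apply Finset.prod_congr rfl
  intro i _
  congr 1
  exact e.symm.sum_comp (fun j => (M (e.symm i) j) ^ 2)

theorem hadamard_int {σ : Type*} [Fintype σ] [DecidableEq σ] (M : Matrix σ σ ℤ) :
    |(M.det : ℝ)| ≤ ∏ i, Real.sqrt (∑ j, (M i j : ℝ) ^ 2) := by
  have h := hadamard (M.map (Int.cast : ℤ → ℝ))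
  have e : (M.map (Int.cast : ℤ → ℝ)).det = (M.det : ℝ) := by
    have := (Int.castRingHom ℝ).map_det M
    simpa using this.symm
  rw [e] at h
  simpa using h

/-- the linear algebra lemma -/
theorem exists_functional {σ : Type} [Fintype σ] [DecidableEq σ] (s0 : σ) (Rows : Set (σ → ℤ))
    {R : ℝ} (hR : 1 ≤ R) (hrow : ∀ v ∈ Rows, ∑ j, (v j : ℝ) ^ 2 ≤ R) (x : σ → ℤ) {h : ℝ}
    (hh : 0 ≤ h)
    (hx : ∀ v ∈ Rows, |((∑ j, v j * x j : ℤ) : ℝ)| ≤ h)
    (hbig : (Fintype.card σ : ℝ) * Real.sqrt R ^ (Fintype.card σ - 1) * h < |(x s0 : ℝ)|) :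
    ∃ y : σ → ℤ, 1 ≤ y s0 ∧ (y s0 : ℝ) ≤ Real.sqrt R ^ (Fintype.card σ - 1) ∧
      ∀ v ∈ Rows, ∑ j, v j * y j = 0 := by
  classical
  let ι : (σ → ℤ) → (σ → ℝ) := fun v j => (v j : ℝ)
  let Rows' : Set (σ → ℝ) := ι '' Rows
  let T : Set (σ → ℝ) := Rows' ∪ Set.range (fun s : σ => (Pi.single s (1 : ℝ) : σ → ℝ))
  obtain ⟨b0, hb0R, -, hRb0, hb0i⟩ := exists_linearIndepOn_id_extension
    (K := ℝ) (linearIndepOn_empty ℝ id) (Set.empty_subset Rows')
  obtain ⟨b, hbT, hb0b, hTb, hbi⟩ := exists_linearIndepOn_id_extension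
    (K := ℝ) hb0i (hb0R.trans (Set.subset_union_left : Rows' ⊆ T))
  have hspan : ⊤ ≤ Submodule.span ℝ (Set.range ((↑) : b → (σ → ℝ))) := by
    rw [Subtype.range_coe, ← (Pi.basisFun ℝ σ).span_eq]
    apply Submodule.span_le.2
    rintro _ ⟨s, rfl⟩
    apply hTb
    right
    exact ⟨s, by simp [Pi.basisFun_apply]⟩
  have hli : LinearIndependent ℝ ((↑) : b → (σ → ℝ)) := hbi
  let B : Module.Basis b ℝ (σ → ℝ) := Module.Basis.mk hli hspan
  have : Fintype b := FiniteDimensional.fintypeBasisIndex B
  have hcard : Fintype.card b = Fintype.card σ := by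
    rw [← Module.finrank_eq_card_basis B, Module.finrank_fintype_fun_eq_card]
  let e : σ ≃ b := Fintype.equivOfCardEq hcard.symm
  have hint : ∀ s, ∃ a : σ → ℤ, ι a = (e s : σ → ℝ) ∧ (∑ j, (a j : ℝ) ^ 2 ≤ R) ∧
      ((e s : σ → ℝ) ∈ b0 → a ∈ Rows) := by
    intro s
    by_cases hs : (e s : σ → ℝ) ∈ b0
    · obtain ⟨a, haR, hae⟩ := hb0R hs
      exact ⟨a, hae, hrow a haR, fun _ => haR⟩
    · rcases hbT (e s).2 with h1 | h1
      · obtain ⟨a, haR, hae⟩ := h1
        exact ⟨a, hae, hrow a haR, fun _ => haR⟩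
      · obtain ⟨s', hs'⟩ := h1
        refine ⟨Pi.single s' 1, ?_, ?_, fun h => absurd h hs⟩
        · rw [← hs']
          funext j
          simp only [ι, Pi.single_apply]
          split_ifs <;> simp
        · have : ∑ j, (((Pi.single s' 1 : σ → ℤ) j : ℤ) : ℝ) ^ 2 = 1 := by
            rw [Finset.sum_eq_single s']
            · simp
            · intro j _ hj
              simp [hj]
            · simp
          rw [this]; exact hR
  choose a ha1 ha2 ha3 using hint
  let A : Matrix σ σ ℤ := Matrix.of a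
  have hdet : A.det ≠ 0 := by
    have h1 : LinearIndependent ℝ (fun s => ι (a s)) := by
      have : (fun s => ι (a s)) = ((↑) : b → (σ → ℝ)) ∘ e := by
        funext s; exact ha1 s
      rw [this]
      exact hli.comp e e.injective
    have h2 : IsUnit (A.map (Int.cast : ℤ → ℝ)) := by
      rw [← Matrix.linearIndependent_rows_iff_isUnit]
      exact h1
    rw [Matrix.isUnit_iff_isUnit_det, isUnit_iff_ne_zero] at h2
    have h3 : (A.map (Int.cast : ℤ → ℝ)).det = (A.det : ℝ) := by
      have := (Int.castRingHom ℝ).map_det A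
      simpa using this.symm
    rw [h3] at h2
    exact_mod_cast h2
  have hsqR : 1 ≤ Real.sqrt R := Real.one_le_sqrt.2 hR
  have hbound : ∀ i, |(A.adjugate s0 i : ℝ)| ≤ Real.sqrt R ^ (Fintype.card σ - 1) := by
    intro i
    rw [Matrix.adjugate_apply]
    refine (hadamard_int _).trans ?_
    rw [← Finset.mul_prod_erase _ _ (Finset.mem_univ i)]
    have h1 : Real.sqrt (∑ j, ((A.updateRow i (Pi.single s0 1) i j : ℤ) : ℝ) ^ 2) = 1 := by
      rw [Real.sqrt_eq_one]
      rw [Finset.sum_eq_single s0]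
      · simp
      · intro j _ hj
        simp [hj]
      · simp
    rw [h1, one_mul]
    have h2 : Fintype.card σ - 1 = (Finset.univ.erase i).card := by
      rw [Finset.card_erase_of_mem (Finset.mem_univ i), Finset.card_univ]
    rw [h2, ← Finset.prod_const]
    apply Finset.prod_le_prod
    · intro j _; exact Real.sqrt_nonneg _
    · intro j hj
      apply Real.sqrt_le_sqrt
      rw [Finset.mem_erase] at hj
      have h3 : ∀ k, A.updateRow i (Pi.single s0 1) j k = a j k := by
        intro k
        rw [Matrix.updateRow_ne hj.1]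
        rfl
      simp only [h3]
      exact ha2 j
  have hex : ∃ i, (e i : σ → ℝ) ∉ b0 ∧ A.adjugate s0 i ≠ 0 := by
    by_contra hcon
    push Not at hcon
    have h1 : ∑ i, A.adjugate s0 i * (∑ j, a i j * x j) = A.det * x s0 := by
      have h2 : ∀ j, ∑ i, A.adjugate s0 i * a i j = if s0 = j then A.det else 0 := by
        intro j
        have := congrFun (congrFun (Matrix.adjugate_mul A) s0) j
        rw [Matrix.mul_apply] at this
        rw [Matrix.smul_apply, Matrix.one_apply] at this
        simp only [smul_eq_mul, mul_ite, mul_one, mul_zero] at this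
        exact this
      calc ∑ i, A.adjugate s0 i * (∑ j, a i j * x j)
          = ∑ i, ∑ j, A.adjugate s0 i * a i j * x j := by
            apply Finset.sum_congr rfl; intro i _
            rw [Finset.mul_sum]
            apply Finset.sum_congr rfl; intro j _; ring
        _ = ∑ j, ∑ i, A.adjugate s0 i * a i j * x j := Finset.sum_comm
        _ = ∑ j, (if s0 = j then A.det else 0) * x j := by
            apply Finset.sum_congr rfl; intro j _
            rw [← Finset.sum_mul, h2 j]
        _ = A.det * x s0 := by simp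
    have h3 : |(x s0 : ℝ)| ≤ |((A.det * x s0 : ℤ) : ℝ)| := by
      rw [Int.cast_mul, abs_mul]
      have : (1 : ℝ) ≤ |(A.det : ℝ)| := by
        have := Int.one_le_abs hdet
        exact_mod_cast this
      exact le_mul_of_one_le_left (abs_nonneg _) this
    rw [← h1] at h3
    have h4 : |((∑ i, A.adjugate s0 i * (∑ j, a i j * x j) : ℤ) : ℝ)| ≤
        ∑ i : σ, Real.sqrt R ^ (Fintype.card σ - 1) * h := by
      rw [Int.cast_sum]
      refine (Finset.abs_sum_le_sum_abs _ _).trans ?_
      apply Finset.sum_le_sum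
      intro i _
      rw [Int.cast_mul, abs_mul]
      by_cases hi : (e i : σ → ℝ) ∈ b0
      · exact mul_le_mul (hbound i) (hx _ (ha3 i hi)) (abs_nonneg _) (by positivity)
      · rw [hcon i hi]
        simp only [Int.cast_zero, abs_zero, zero_mul]
        positivity
    rw [Finset.sum_const, Finset.card_univ, nsmul_eq_mul] at h4
    linarith
  obtain ⟨i0, hi0, hne⟩ := hex
  -- the functional
  have hvan : ∀ v ∈ Rows, ∑ j, v j * A.adjugate j i0 = 0 := by
    let f : (σ → ℝ) →ₗ[ℝ] ℝ := ∑ j, (A.adjugate j i0 : ℝ) • LinearMap.proj j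
    have hf : ∀ v : σ → ℝ, f v = ∑ j, (A.adjugate j i0 : ℝ) * v j := by
      intro v
      simp [f, LinearMap.sum_apply]
    have hfa : ∀ s, s ≠ i0 → f (ι (a s)) = 0 := by
      intro s hs
      rw [hf]
      have := congrFun (congrFun (Matrix.mul_adjugate A) s) i0
      rw [Matrix.mul_apply, Matrix.smul_apply, Matrix.one_apply_ne hs, smul_zero] at this
      have h5 : ((∑ j, A s j * A.adjugate j i0 : ℤ) : ℝ) = 0 := by rw [this]; simp
      rw [Int.cast_sum] at h5
      rw [← h5]
      apply Finset.sum_congr rfl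
      intro j _
      simp only [ι, A, Matrix.of_apply]
      push_cast
      ring
    have hfb : ∀ w ∈ b0, f w = 0 := by
      intro w hw
      obtain ⟨s, hs⟩ := e.surjective ⟨w, hb0b hw⟩
      have hs' : (e s : σ → ℝ) = w := by rw [hs]
      have hsi : s ≠ i0 := by
        rintro rfl
        exact hi0 (hs' ▸ hw)
      have := hfa s hsi
      rw [ha1 s, hs'] at this
      exact this
    have hfs : Submodule.span ℝ b0 ≤ LinearMap.ker f := by
      apply Submodule.span_le.2
      intro w hw
      exact hfb w hw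
    intro v hv
    have h6 : f (ι v) = 0 := hfs (hRb0 ⟨v, hv, rfl⟩)
    rw [hf] at h6
    have h7 : ((∑ j, v j * A.adjugate j i0 : ℤ) : ℝ) = 0 := by
      rw [← h6]
      push_cast
      apply Finset.sum_congr rfl
      intro j _
      simp only [ι]
      ring
    exact_mod_cast h7
  rcases lt_or_gt_of_ne hne with hneg | hpos
  · refine ⟨fun j => -A.adjugate j i0, ?_, ?_, ?_⟩
    · change 1 ≤ -A.adjugate s0 i0
      omega
    · push_cast
      exact (neg_le_abs _).trans (hbound i0)
    · intro v hv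
      have := hvan v hv
      simp only [mul_neg, Finset.sum_neg_distrib, this, neg_zero]
  · refine ⟨fun j => A.adjugate j i0, ?_, ?_, ?_⟩
    · change 1 ≤ A.adjugate s0 i0
      omega
    · exact (le_abs_self _).trans (hbound i0)
    · intro v hv
      exact hvan v hv

end Q217.SF
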