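import Pool.Agent.Q217.SF.Closed
import Pool.Agent.Q217.SF.Lin

/-!
# The deformation principle for products of sparse integers
-/

set_option autoImplicit false

namespace Q217.SF

open Finset Polynomial

variable {r : ℕ} {k : Fin r → ℕ} {l : ℕ}

/-- the index set of the monomials -/
abbrev Idx (k : Fin r → ℕ) (l : ℕ) : Type := (∀ t, Fin (k t)) ⊕ (Fin l × Bool)

/-- the index set of the exponents -/
abbrev Var (k : Fin r → ℕ) (l : ℕ) : Type := Option ((Σ t : Fin r, Fin (k t)) ⊕ Fin l)

/-- the exponent vectors -/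
def vec (k : Fin r → ℕ) (l : ℕ) : Idx k l → Var k l → ℤ
  | .inl _, none => 0
  | .inl φ, some (.inl p) => if φ p.1 = p.2 then 1 else 0
  | .inl _, some (.inr _) => 0
  | .inr (_, true), none => 1
  | .inr (_, false), none => 0
  | .inr _, some (.inl _) => 0
  | .inr (j, _), some (.inr j') => if j = j' then 1 else 0

theorem vec_nonneg (i : Idx k l) (p : Var k l) : 0 ≤ vec k l i p := by
  rcases i with φ | ⟨j, b⟩
  · rcases p with _ | p | p
    · simp [vec]
    · simp only [vec]; split_ifs <;> norm_num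
    · simp [vec]
  · cases b <;> rcases p with _ | p | p <;> simp only [vec] <;> (try split_ifs) <;> norm_num

theorem vec_sq (i : Idx k l) (p : Var k l) : vec k l i p ^ 2 = vec k l i p := by
  rcases i with φ | ⟨j, b⟩
  · rcases p with _ | p | p
    · simp [vec]
    · simp only [vec]; split_ifs <;> norm_num
    · simp [vec]
  · cases b <;> rcases p with _ | p | p <;> simp only [vec] <;> (try split_ifs) <;> norm_num

/-- the pairing with the exponent vectors -/
theorem sum_vec_inl (φ : ∀ t, Fin (k t)) (x : Var k l → ℤ) :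
    ∑ p, vec k l (.inl φ) p * x p = ∑ t, x (some (.inl ⟨t, φ t⟩)) := by
  rw [Fintype.sum_option, Fintype.sum_sum_type, Fintype.sum_sigma]
  simp [vec]

theorem sum_vec_true (j : Fin l) (x : Var k l → ℤ) :
    ∑ p, vec k l (.inr (j, true)) p * x p = x none + x (some (.inr j)) := by
  rw [Fintype.sum_option, Fintype.sum_sum_type]
  simp [vec]

theorem sum_vec_false (j : Fin l) (x : Var k l → ℤ) :
    ∑ p, vec k l (.inr (j, false)) p * x p = x (some (.inr j)) := by
  rw [Fintype.sum_option, Fintype.sum_sum_type]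
  simp [vec]

theorem vec_norm (hr : 2 ≤ r) (i : Idx k l) : ∑ p, vec k l i p ^ 2 ≤ r := by
  have h1 : ∑ p, vec k l i p ^ 2 = ∑ p, vec k l i p * (fun _ => 1) p := by
    apply Finset.sum_congr rfl
    intro p _
    rw [vec_sq]; ring
  rw [h1]
  rcases i with φ | ⟨j, b⟩
  · rw [sum_vec_inl]; simp
  · cases b
    · rw [sum_vec_false]; exact_mod_cast (by omega : 1 ≤ r)
    · rw [sum_vec_true]; exact_mod_cast hr

theorem vec_sub_norm (hr : 2 ≤ r) (i j : Idx k l) :
    ∑ p, ((vec k l i p - vec k l j p : ℤ) : ℝ) ^ 2 ≤ 2 * r := by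
  have h : ∑ p, (vec k l i p - vec k l j p) ^ 2 ≤ 2 * (r : ℤ) := by
    calc ∑ p, (vec k l i p - vec k l j p) ^ 2 ≤ ∑ p, (vec k l i p ^ 2 + vec k l j p ^ 2) := by
          apply Finset.sum_le_sum
          intro p _
          nlinarith [mul_nonneg (vec_nonneg i p) (vec_nonneg j p)]
      _ = ∑ p, vec k l i p ^ 2 + ∑ p, vec k l j p ^ 2 := Finset.sum_add_distrib
      _ ≤ 2 * (r : ℤ) := by
          have := vec_norm hr i
          have := vec_norm hr j
          linarith
  exact_mod_cast h

/-- **The deformation principle.** -/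
theorem deform {b : ℕ} (hb : 2 ≤ b) (hr : 2 ≤ r) (c : ∀ t, Fin (k t) → ℤ)
    (α : ∀ t, Fin (k t) → ℕ) (d : Fin l → ℤ) (β : Fin l → ℕ) (U V : ℤ) (M h : ℕ)
    (hprod : ∏ t, ∑ i, c t i * (b : ℤ) ^ α t i =
      (∑ j, d j * (b : ℤ) ^ β j) * (U * (b : ℤ) ^ M + V))
    (hh : ∏ t, ∑ i, |c t i| + (∑ j, |d j|) * (|U| + |V|) < (b : ℤ) ^ (h + 1))
    (hbig : ((∑ t, k t + l + 1 : ℕ) : ℝ) * Real.sqrt (2 * r) ^ (∑ t, k t + l) * h < M) :
    ∃ (P : Fin r → ℤ[X]) (Pq : ℤ[X]) (s s' Y : ℕ), 1 ≤ Y ∧
      (Y : ℝ) ≤ Real.sqrt (2 * r) ^ (∑ t, k t + l) ∧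
      (∀ t, (P t).eval 1 = ∑ i, c t i * (b : ℤ) ^ α t i) ∧
      (Pq.eval 1 = ∑ j, d j * (b : ℤ) ^ β j) ∧
      X ^ s' * ∏ t, P t = X ^ s * Pq * (C (U * (b : ℤ) ^ M) * X ^ Y + C V) := by
  classical
  -- the exponents and coefficients
  let x : Var k l → ℤ := fun p => match p with
    | none => M
    | some (.inl p) => α p.1 p.2
    | some (.inr j) => β j
  let E : Idx k l → ℕ := fun i => match i with
    | .inl φ => ∑ t, α t (φ t)
    | .inr (j, true) => M + β j
    | .inr (j, false) => β j
  let cc : Idx k l → ℤ := fun i => match i with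
    | .inl φ => ∏ t, c t (φ t)
    | .inr (j, true) => -(d j * U)
    | .inr (j, false) => -(d j * V)
  have hE : ∀ i, ∑ p, vec k l i p * x p = E i := by
    intro i
    rcases i with φ | ⟨j, b⟩
    · rw [sum_vec_inl]; simp [x, E]
    · cases b
      · rw [sum_vec_false]
      · rw [sum_vec_true]; simp [x, E]
  have hcard : Fintype.card (Var k l) = ∑ t, k t + l + 1 := by
    simp [Fintype.card_option, Fintype.card_sigma]
  let Rows : Set (Var k l → ℤ) :=
    {v | ∃ i j : Idx k l, E i ≤ E j + h ∧ E j ≤ E i + h ∧ v = fun p => vec k l i p - vec k l j p}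
  have hR : (1 : ℝ) ≤ 2 * r := by
    have : (2 : ℝ) ≤ r := by exact_mod_cast hr
    linarith
  obtain ⟨y, hy1, hy2, hy3⟩ := exists_functional (none : Var k l) Rows hR
    (by
      rintro _ ⟨i, j, -, -, rfl⟩
      exact vec_sub_norm hr i j) x (h := h) (by positivity)
    (by
      rintro _ ⟨i, j, h1, h2, rfl⟩
      have e1 : ∑ p, (vec k l i p - vec k l j p) * x p = (E i : ℤ) - E j := by
        rw [← hE i, ← hE j, ← Finset.sum_sub_distrib]
        apply Finset.sum_congr rfl
        intro p _; ring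
      rw [e1]
      have e2 : |(E i : ℤ) - E j| ≤ h := by
        rw [abs_le]; constructor <;> omega
      exact_mod_cast e2)
    (by
      rw [hcard]
      simpa [x] using hbig)
  rw [hcard] at hy2
  simp only [add_tsub_cancel_right] at hy2
  -- the shifts
  let sh : Fin r → ℕ := fun t => ∑ i, (y (some (.inl ⟨t, i⟩))).natAbs
  have hsh : ∀ t i, 0 ≤ y (some (.inl ⟨t, i⟩)) + sh t := by
    intro t i
    have h1 : (y (some (.inl ⟨t, i⟩))).natAbs ≤ sh t :=
      Finset.single_le_sum (f := fun i => (y (some (.inl ⟨t, i⟩))).natAbs)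
        (fun _ _ => Nat.zero_le _) (Finset.mem_univ i)
    omega
  let sq : ℕ := ∑ j, (y (some (.inr j))).natAbs
  have hsq : ∀ j, 0 ≤ y (some (.inr j)) + sq := by
    intro j
    have h1 : (y (some (.inr j))).natAbs ≤ sq :=
      Finset.single_le_sum (f := fun j => (y (some (.inr j))).natAbs)
        (fun _ _ => Nat.zero_le _) (Finset.mem_univ j)
    omega
  let z : ∀ t, Fin (k t) → ℕ := fun t i => (y (some (.inl ⟨t, i⟩)) + sh t).toNat
  have hz : ∀ t i, (z t i : ℤ) = y (some (.inl ⟨t, i⟩)) + sh t :=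
    fun t i => Int.toNat_of_nonneg (hsh t i)
  let zq : Fin l → ℕ := fun j => (y (some (.inr j)) + sq).toNat
  have hzq : ∀ j, (zq j : ℤ) = y (some (.inr j)) + sq := fun j => Int.toNat_of_nonneg (hsq j)
  let P : Fin r → ℤ[X] := fun t => ∑ i, C (c t i * (b : ℤ) ^ α t i) * X ^ z t i
  let Pq : ℤ[X] := ∑ j, C (d j * (b : ℤ) ^ β j) * X ^ zq j
  let s : ℕ := ∑ t, sh t
  let Y : ℕ := (y none).toNat
  have hY : (Y : ℤ) = y none := Int.toNat_of_nonneg (by omega)
  let Z : Idx k l → ℕ := fun i => match i with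
    | .inl φ => sq + ∑ t, z t (φ t)
    | .inr (j, true) => s + Y + zq j
    | .inr (j, false) => s + zq j
  have hZ : ∀ i, (Z i : ℤ) = s + sq + ∑ p, vec k l i p * y p := by
    intro i
    rcases i with φ | ⟨j, b⟩
    · rw [sum_vec_inl]
      simp only [Z, s]
      push_cast
      simp only [hz]
      rw [Finset.sum_add_distrib]
      ring
    · cases b
      · rw [sum_vec_false]; simp only [Z]; push_cast; rw [hzq]; ring
      · rw [sum_vec_true]; simp only [Z]; push_cast; rw [hzq, hY]; ring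
  refine ⟨P, Pq, s, sq, Y, by omega, ?_, ?_, ?_, ?_⟩
  · have : (Y : ℝ) = (y none : ℝ) := by exact_mod_cast hY
    rw [this]; exact hy2
  · intro t
    simp [P, eval_finsetSum]
  · simp [Pq, eval_finsetSum]
  · -- the identity
    have hprodP : X ^ sq * ∏ t, P t =
        ∑ φ : (∀ t, Fin (k t)), C (cc (.inl φ) * (b : ℤ) ^ E (.inl φ)) * X ^ Z (.inl φ) := by
      simp only [P]
      rw [Finset.prod_univ_sum, Finset.mul_sum, Fintype.piFinset_univ]
      apply Finset.sum_congr rfl
      intro φ _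
      rw [Finset.prod_mul_distrib, Finset.prod_pow_eq_pow_sum, ← map_prod,
        Finset.prod_mul_distrib, Finset.prod_pow_eq_pow_sum]
      simp only [cc, E, Z]
      rw [pow_add]
      ring
    have hQ : X ^ s * Pq * (C (U * (b : ℤ) ^ M) * X ^ Y + C V) =
        -∑ q : Fin l × Bool, C (cc (.inr q) * (b : ℤ) ^ E (.inr q)) * X ^ Z (.inr q) := by
      rw [Fintype.sum_prod_type, ← Finset.sum_neg_distrib]
      simp only [Pq]
      rw [Finset.mul_sum, Finset.sum_mul]
      apply Finset.sum_congr rfl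
      intro j _
      rw [Fintype.sum_bool]
      simp only [cc, E, Z, pow_add, C_neg, C_mul, neg_mul]
      ring
    have htot : ∑ i : Idx k l, cc i * (b : ℤ) ^ E i = 0 := by
      rw [Fintype.sum_sum_type, Fintype.sum_prod_type]
      have e1 : ∑ φ : (∀ t, Fin (k t)), cc (.inl φ) * (b : ℤ) ^ E (.inl φ) =
          ∏ t, ∑ i, c t i * (b : ℤ) ^ α t i := by
        rw [Finset.prod_univ_sum, Fintype.piFinset_univ]
        apply Finset.sum_congr rfl
        intro φ _
        rw [Finset.prod_mul_distrib, Finset.prod_pow_eq_pow_sum]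
      have e2 : ∑ j, ∑ q : Bool, cc (.inr (j, q)) * (b : ℤ) ^ E (.inr (j, q)) =
          -((∑ j, d j * (b : ℤ) ^ β j) * (U * (b : ℤ) ^ M + V)) := by
        rw [Finset.sum_mul, ← Finset.sum_neg_distrib]
        apply Finset.sum_congr rfl
        intro j _
        rw [Fintype.sum_bool]
        simp only [cc, E, pow_add]
        ring
      rw [e1, e2, hprod]
      ring
    have habs : ∑ i : Idx k l, |cc i| < (b : ℤ) ^ (h + 1) := by
      rw [Fintype.sum_sum_type, Fintype.sum_prod_type]
      have e1 : ∑ φ : (∀ t, Fin (k t)), |cc (.inl φ)| = ∏ t, ∑ i, |c t i| := by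
        rw [Finset.prod_univ_sum, Fintype.piFinset_univ]
        apply Finset.sum_congr rfl
        intro φ _
        simp only [cc]
        rw [Finset.abs_prod]
      have e2 : ∑ j, ∑ q : Bool, |cc (.inr (j, q))| = (∑ j, |d j|) * (|U| + |V|) := by
        rw [Finset.sum_mul]
        apply Finset.sum_congr rfl
        intro j _
        rw [Fintype.sum_bool]
        simp only [cc, abs_neg, abs_mul]
        ring
      rw [e1, e2]
      exact hh
    have hclosed : ∀ n : ℕ, ∑ i ∈ Finset.univ.filter (fun i : Idx k l => Z i = n),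
        cc i * (b : ℤ) ^ E i = 0 := by
      intro n
      refine closed_sum hb (c := cc) (E := E) (h := h) Finset.univ habs htot _
        (Finset.subset_univ _) ?_
      intro i hi j _ h1 h2
      rw [Finset.mem_filter] at hi ⊢
      refine ⟨Finset.mem_univ _, ?_⟩
      have h3 := hy3 _ ⟨i, j, h1, h2, rfl⟩
      have h4 : ∑ p, vec k l i p * y p = ∑ p, vec k l j p * y p := by
        have : ∑ p, (vec k l i p - vec k l j p) * y p =
            ∑ p, vec k l i p * y p - ∑ p, vec k l j p * y p := by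
          rw [← Finset.sum_sub_distrib]
          apply Finset.sum_congr rfl
          intro p _; ring
        linarith [h3, this]
      have h5 := hZ i
      have h6 := hZ j
      rw [← h4] at h6
      have h7 : (Z i : ℤ) = Z j := by rw [h5, h6]
      rw [← hi.2]
      exact_mod_cast h7.symm
    have hzero : ∑ i : Idx k l, C (cc i * (b : ℤ) ^ E i) * X ^ Z i = (0 : ℤ[X]) := by
      ext n
      rw [finsetSum_coeff, coeff_zero, ← hclosed n, Finset.sum_filter]
      apply Finset.sum_congr rfl
      intro i _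
      rw [coeff_C_mul_X_pow]
      by_cases hn : Z i = n
      · rw [if_pos hn, if_pos hn.symm]
      · rw [if_neg hn, if_neg (fun h => hn h.symm)]
    rw [Fintype.sum_sum_type] at hzero
    rw [hprodP, hQ]
    linear_combination hzero

end Q217.SF
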