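import Pool.Agent.Q217.SF.Deform
import Pool.Agent.Q217.SF.Capelli

/-!
# From the polynomial identity to the triviality of a factorization
-/

set_option autoImplicit false

namespace Q217.SF

open Finset Polynomial

/-- A prime polynomial dividing a product of the form below divides one of the factors. -/
theorem dvd_of_prime {r : ℕ} {P : Fin r → ℤ[X]} {Pq : ℤ[X]} {s s' : ℕ} {Q : ℤ[X]} (hQ : Prime Q)
    (h0 : Q.coeff 0 ≠ 0) (h : X ^ s' * ∏ t, P t = X ^ s * Pq * Q) :
    ∃ t, Q.eval 1 ∣ (P t).eval 1 := by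
  have h1 : Q ∣ X ^ s' * ∏ t, P t := by rw [h]; exact dvd_mul_left _ _
  rcases hQ.dvd_or_dvd h1 with h2 | h2
  · exfalso
    have h3 : Q ∣ X := hQ.dvd_of_dvd_pow h2
    have h4 : Associated Q X := (hQ.dvd_prime_iff_associated Polynomial.prime_X).1 h3
    have h5 : X ∣ Q := h4.symm.dvd
    rw [X_dvd_iff] at h5
    exact h0 h5
  · obtain ⟨t, -, R, hR⟩ := (Prime.dvd_finsetProd_iff hQ P).1 h2
    exact ⟨t, ⟨R.eval 1, by rw [hR, eval_mul]⟩⟩

theorem val_two (M : ℕ) : padicValRat 2 (-(1 / 2 ^ M)) = -(M : ℤ) := by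
  rw [padicValRat.neg, one_div, padicValRat.inv, padicValRat.pow,
    show (2 : ℚ) = ((2 : ℕ) : ℚ) by norm_num, padicValRat.self (by norm_num)]
  simp

/-- `2 ^ (2 ^ m) X ^ Y + 1` is a prime element of `ℤ[X]` for `m ≥ 2`. -/
theorem prime_fermat {m Y : ℕ} (hm : 2 ≤ m) (hY : 1 ≤ Y) :
    Prime (C ((2 : ℤ) ^ (2 ^ m)) * X ^ Y + C 1 : ℤ[X]) := by
  have hM : 4 ∣ 2 ^ m := by
    obtain ⟨j, rfl⟩ := Nat.exists_eq_add_of_le hm
    exact ⟨2 ^ j, by rw [pow_add]; norm_num⟩
  rw [← UniqueFactorizationMonoid.irreducible_iff_prime]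
  have hprim : (C ((2 : ℤ) ^ (2 ^ m)) * X ^ Y + C 1 : ℤ[X]).IsPrimitive := by
    intro a ha
    rw [C_dvd_iff_dvd_coeff] at ha
    have := ha 0
    rw [coeff_add, coeff_C_mul_X_pow, if_neg (by omega), coeff_C_zero, zero_add] at this
    exact isUnit_of_dvd_one this
  rw [IsPrimitive.Int.irreducible_iff_irreducible_map_cast hprim]
  have e : (C ((2 : ℤ) ^ (2 ^ m)) * X ^ Y + C 1 : ℤ[X]).map (Int.castRingHom ℚ) =
      C ((2 : ℚ) ^ (2 ^ m)) * (X ^ Y - C (-(1 / 2 ^ (2 ^ m)))) := by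
    simp only [Polynomial.map_add, Polynomial.map_mul, Polynomial.map_pow, map_X, map_C]
    rw [mul_sub, ← C_mul]
    have : (2 : ℚ) ^ (2 ^ m) * (-(1 / 2 ^ (2 ^ m))) = -1 := by
      field_simp
    rw [this]
    simp
  have hu : IsUnit (C ((2 : ℚ) ^ (2 ^ m))) := isUnit_C.2 (by simp)
  rw [e, irreducible_isUnit_mul hu]
  apply capelli (by omega)
  · intro p hp hpY x hx
    rcases hp.eq_two_or_odd' with h2 | hodd
    · subst h2
      have : 0 ≤ x ^ 2 := sq_nonneg x
      rw [hx] at this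
      have h3 : (0 : ℚ) < 1 / 2 ^ (2 ^ m) := by positivity
      linarith
    · -- valuation
      have h1 : padicValRat 2 (x ^ p) = -(2 ^ m : ℕ) := by
        rw [hx, val_two]
      have hx0 : x ≠ 0 := by
        rintro rfl
        rw [zero_pow hp.ne_zero] at hx
        have h3 : (0 : ℚ) < 1 / 2 ^ (2 ^ m) := by positivity
        linarith
      rw [padicValRat.pow] at h1
      have h3 : (p : ℤ) ∣ ((2 ^ m : ℕ) : ℤ) := by
        rw [← dvd_neg, ← h1]
        exact dvd_mul_right _ _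
      have h4 : p ∣ 2 ^ m := by exact_mod_cast h3
      have h5 := hp.dvd_of_dvd_pow h4
      have h6 := (Nat.prime_dvd_prime_iff_eq hp Nat.prime_two).1 h5
      subst h6
      exact absurd hodd (by decide)
  · intro h4 x hx
    have hx0 : x ≠ 0 := by
      rintro rfl
      have h3 : (0 : ℚ) < 1 / 2 ^ (2 ^ m) := by positivity
      rw [zero_pow (by norm_num), mul_zero] at hx
      linarith
    have h1 : padicValRat 2 (-4 * x ^ 4) = -(2 ^ m : ℕ) := by
      rw [hx, val_two]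
    rw [padicValRat.mul (by norm_num) (pow_ne_zero _ hx0), padicValRat.neg,
      padicValRat.pow, show (4 : ℚ) = ((2 : ℕ) : ℚ) ^ 2 by norm_num,
      padicValRat.pow, padicValRat.self (by norm_num)] at h1
    obtain ⟨j, hj⟩ := hM
    rw [hj] at h1
    push_cast at h1
    omega

end Q217.SF
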